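import Pool.Agent.H64.CC.Exit
import Pool.Agent.H40.Atiyah.Arr

/-!
# The array of the exit angles of a convex polygon
-/

set_option autoImplicit false

namespace Pool.Agent.H64.CC

open Pool.Agent.H64.Hyp4

open Pool.Agent.H40.Atiyah (KArr)

section

variable (n : ℕ) (φ : ℕ → ℕ → ℝ)

/-- the directions on the strip -/
noncomputable def psi (i j : ℤ) : ℝ :=
  if (i % n).toNat < (j % n).toNat then φ (i % n).toNat (j % n).toNat + 2 * Real.pi * (i / n : ℤ)
  else φ (j % n).toNat (i % n).toNat + Real.pi + 2 * Real.pi * (i / n : ℤ)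

theorem emod_eq {a : ℤ} {r : ℕ} (hr : r < n) : ((a * n + r) % n : ℤ) = r := by
  rw [add_comm, Int.add_mul_emod_self_right]
  exact Int.emod_eq_of_lt (by omega) (by omega)

theorem ediv_eq {a : ℤ} {r : ℕ} (hr : r < n) : ((a * n + r) / n : ℤ) = a := by
  have hn : (n : ℤ) ≠ 0 := by omega
  rw [add_comm, Int.add_mul_ediv_right _ _ hn, Int.ediv_eq_zero_of_lt (by omega) (by omega), zero_add]

theorem psi_lt {a : ℤ} {r s : ℕ} (hrs : r < s) (hs : s < n) (b : ℤ) :
    psi n φ (a * n + r) (b * n + s) = φ r s + 2 * Real.pi * a := by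
  unfold psi
  rw [emod_eq n (hrs.trans hs), emod_eq n hs, ediv_eq n (hrs.trans hs)]
  simp only [Int.toNat_natCast, if_pos hrs]

theorem psi_gt {a : ℤ} {r s : ℕ} (hrs : s < r) (hr : r < n) (b : ℤ) :
    psi n φ (a * n + r) (b * n + s) = φ s r + Real.pi + 2 * Real.pi * a := by
  unfold psi
  rw [emod_eq n hr, emod_eq n (hrs.trans hr), ediv_eq n hr]
  simp only [Int.toNat_natCast, if_neg (not_lt.2 hrs.le)]

theorem exists_rep (hn : 0 < n) (i : ℤ) : ∃ (a : ℤ) (r : ℕ), r < n ∧ i = a * n + r := by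
  have hn' : (0 : ℤ) < n := by exact_mod_cast hn
  refine ⟨i / n, (i % n).toNat, ?_, ?_⟩
  · have h1 := Int.emod_nonneg i hn'.ne'
    have h2 := Int.emod_lt_of_pos i hn'
    omega
  · have h1 := Int.emod_nonneg i hn'.ne'
    rw [Int.toNat_of_nonneg h1]
    have := Int.ediv_mul_add_emod i n
    linarith

/-- cells of the strip -/
theorem strip (hn : 0 < n) {i j : ℤ} (h1 : i < j) (h2 : j < i + n) :
    ∃ (a : ℤ) (r s : ℕ), r < n ∧ s < n ∧ i = a * n + r ∧
      ((r < s ∧ j = a * n + s) ∨ (s < r ∧ j = (a + 1) * n + s)) := by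
  obtain ⟨a, r, hr, rfl⟩ := exists_rep n hn i
  obtain ⟨b, s, hs, rfl⟩ := exists_rep n hn j
  refine ⟨a, r, s, hr, hs, rfl, ?_⟩
  have hn' : (0 : ℤ) < n := by exact_mod_cast hn
  have h3 : a ≤ b := by
    by_contra hcon
    push Not at hcon
    have : (b + 1) * (n : ℤ) ≤ a * n := mul_le_mul_of_nonneg_right hcon hn'.le
    rw [add_mul, one_mul] at this
    omega
  have h4 : b ≤ a + 1 := by
    by_contra hcon
    push Not at hcon
    have : (a + 1 + 1) * (n : ℤ) ≤ b * n := mul_le_mul_of_nonneg_right hcon hn'.le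
    rw [add_mul, add_mul, one_mul] at this
    omega
  rcases (by omega : b = a ∨ b = a + 1) with rfl | rfl
  · left
    exact ⟨by omega, rfl⟩
  · right
    rw [add_mul, one_mul] at h2
    exact ⟨by omega, rfl⟩

variable {n φ}

/-- the array of directions -/
theorem psi_karr (hn : 2 ≤ n)
    (hφ : ∀ i j k, i < j → j < k → k < n → φ i j < φ i k ∧ φ i k < φ j k ∧ φ j k < φ i j + Real.pi) :
    KArr n (psi n φ) := by
  have hpi := Real.pi_pos
  have hn0 : 0 < n := by omega
  refine ⟨?_, ?_, ?_, ?_⟩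
  · intro i j
    obtain ⟨a, r, hr, rfl⟩ := exists_rep n hn0 i
    obtain ⟨b, s, hs, rfl⟩ := exists_rep n hn0 j
    have e1 : a * (n : ℤ) + r + n = (a + 1) * n + r := by ring
    have e2 : b * (n : ℤ) + s + n = (b + 1) * n + s := by ring
    rw [e1, e2]
    unfold psi
    rw [emod_eq n hr, emod_eq n hs, emod_eq n hr, emod_eq n hs, ediv_eq n hr, ediv_eq n hr]
    split_ifs
    · push_cast; ring
    · push_cast; ring
  · intro i j h1 h2
    obtain ⟨a, r, s, hr, hs, rfl, h3⟩ := strip n hn0 h1 (by omega)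
    rcases h3 with ⟨h3, rfl⟩ | ⟨h3, rfl⟩
    · rw [psi_lt n φ h3 hs]
      rcases Nat.lt_or_ge (s + 1) n with h4 | h4
      · have e : a * (n : ℤ) + s + 1 = a * n + (s + 1 : ℕ) := by push_cast; ring
        rw [e, psi_lt n φ (by omega) h4]
        have := (hφ r s (s + 1) h3 (by omega) h4).1
        linarith
      · have h5 : s + 1 = n := by omega
        have e : a * (n : ℤ) + s + 1 = (a + 1) * n + (0 : ℕ) := by
          rw [← h5]; push_cast; ring
        have h6 : 0 < r := by
          by_contra h6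
          have : r = 0 := by omega
          subst this
          have : (n : ℤ) = s + 1 := by exact_mod_cast h5.symm
          rw [e] at h2
          rw [add_mul, one_mul] at h2
          push_cast at h2
          omega
        rw [e, psi_gt n φ h6 hr]
        have := (hφ 0 r s h6 h3 hs).2.2
        linarith
    · rw [psi_gt n φ h3 hr]
      have h4 : s + 1 < r := by
        rw [add_mul, one_mul] at h2
        omega
      have e : (a + 1) * (n : ℤ) + s + 1 = (a + 1) * n + (s + 1 : ℕ) := by push_cast; ring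
      rw [e, psi_gt n φ h4 hr]
      have := (hφ s (s + 1) r (by omega) h4 hr)
      linarith [this.1, this.2.1]
  · intro i j h1 h2
    obtain ⟨a, r, s, hr, hs, rfl, h3⟩ := strip n hn0 (show i < j by omega) h2
    rcases h3 with ⟨h3, rfl⟩ | ⟨h3, rfl⟩
    · rw [psi_lt n φ h3 hs]
      have e : a * (n : ℤ) + r + 1 = a * n + (r + 1 : ℕ) := by push_cast; ring
      have h4 : r + 1 < s := by omega
      rw [e, psi_lt n φ h4 hs]
      have := (hφ r (r + 1) s (by omega) h4 hs)
      linarith [this.2.1]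
    · rw [psi_gt n φ h3 hr]
      rcases Nat.lt_or_ge (r + 1) n with h4 | h4
      · have e : a * (n : ℤ) + r + 1 = a * n + (r + 1 : ℕ) := by push_cast; ring
        rw [e, psi_gt n φ (by omega) h4]
        have := (hφ s r (r + 1) h3 (by omega) h4)
        linarith [this.1]
      · have h5 : r + 1 = n := by omega
        have e : a * (n : ℤ) + r + 1 = (a + 1) * n + (0 : ℕ) := by
          rw [← h5]; push_cast; ring
        have h6 : 0 < s := by
          by_contra h6
          have : s = 0 := by omega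
          subst this
          rw [e] at h1
          push_cast at h1
          omega
        rw [e, psi_lt n φ h6 (by omega)]
        have := (hφ 0 s r h6 h3 hr)
        push_cast
        linarith [this.2.2]
  · intro i
    obtain ⟨a, r, hr, rfl⟩ := exists_rep n hn0 i
    rcases Nat.lt_or_ge (r + 1) n with h4 | h4
    · have e : a * (n : ℤ) + r + 1 = a * n + (r + 1 : ℕ) := by push_cast; ring
      rw [e, psi_lt n φ (by omega) h4]
      rcases Nat.lt_or_ge (r + 2) n with h5 | h5
      · have e2 : a * (n : ℤ) + r + 2 = a * n + (r + 2 : ℕ) := by push_cast; ring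
        rw [e2, psi_lt n φ (by omega) h5]
        have := (hφ r (r + 1) (r + 2) (by omega) (by omega) h5)
        linarith [this.1, this.2.1]
      · have h6 : r + 2 = n := by omega
        have e2 : a * (n : ℤ) + r + 2 = (a + 1) * n + (0 : ℕ) := by
          rw [← h6]; push_cast; ring
        rw [e2, psi_gt n φ (by omega) h4]
        rcases Nat.eq_zero_or_pos r with h7 | h7
        · subst h7
          push_cast
          linarith
        · have := (hφ 0 r (r + 1) h7 (by omega) h4)
          linarith [this.2.2, this.1]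
    · have h5 : r + 1 = n := by omega
      have e : a * (n : ℤ) + r + 1 = (a + 1) * n + (0 : ℕ) := by
        rw [← h5]; push_cast; ring
      have e2 : a * (n : ℤ) + r + 2 = (a + 1) * n + (1 : ℕ) := by
        rw [← h5]; push_cast; ring
      rw [e, e2, psi_gt n φ (by omega) hr, psi_lt n φ one_pos (by omega)]
      push_cast
      rcases Nat.lt_or_ge 1 r with h7 | h7
      · have := (hφ 0 1 r one_pos h7 hr)
        linarith [this.2.2, this.2.1]
      · have : r = 1 := by omega
        subst this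
        linarith

end

/-- the exit angles of a convex polygon in the disc -/
theorem exists_karr (n : ℕ) (hn : 2 ≤ n) (z : ℕ → ℂ) (hz : ∀ i, i < n → ‖z i‖ < 1)
    (H : ∀ i j k, i < j → j < k → k < n → 0 < ori (z i) (z j) (z k))
    (hne : ∀ i j, i < j → j < n → z i ≠ z j) :
    ∃ u : ℤ → ℤ → ℝ, KArr n u ∧ ∀ i j : ℤ, i < j → j < i + n → ∀ s : ℝ, 0 < s →
      ‖z (i % n).toNat + s • (z (j % n).toNat - z (i % n).toNat)‖ = 1 →
      z (i % n).toNat + s • (z (j % n).toNat - z (i % n).toNat) = ex (u i j) := by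
  obtain ⟨φ, h1, h2⟩ := exists_phi n z H hne
  have hK := psi_karr hn h2
  have hn0 : 0 < n := by omega
  obtain ⟨Z, hZ⟩ : ∃ Z : ℤ → ℂ, Z = fun i : ℤ => z (i % (n : ℤ)).toNat := ⟨_, rfl⟩
  have hZi : ∀ i, Z i = z (i % n).toNat := fun i => by rw [hZ]
  have hlt : ∀ i : ℤ, (i % n).toNat < n := by
    intro i
    have hn' : (0 : ℤ) < n := by exact_mod_cast hn0
    have h1 := Int.emod_nonneg i hn'.ne'
    have h2 := Int.emod_lt_of_pos i hn'
    omega
  have hZ1 : ∀ i, ‖Z i‖ < 1 := fun i => by
    rw [hZi]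
    exact hz _ (hlt i)
  have hdir : ∀ i j : ℤ, i < j → j < i + n → ∃ t : ℝ, 0 < t ∧ Z j - Z i = t • ex (psi n φ i j) := by
    intro i j hij hji
    obtain ⟨a, r, s, hr, hs, rfl, h3⟩ := strip n hn0 hij hji
    rcases h3 with ⟨h3, rfl⟩ | ⟨h3, rfl⟩
    · refine ⟨‖z s - z r‖, norm_pos_iff.2 (sub_ne_zero.2 (hne r s h3 hs).symm), ?_⟩
      rw [psi_lt n φ h3 hs, hZi, hZi, emod_eq n hr, emod_eq n hs, ex_add_int]
      exact h1 r s h3 hs
    · refine ⟨‖z r - z s‖, norm_pos_iff.2 (sub_ne_zero.2 (hne s r h3 hr).symm), ?_⟩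
      rw [psi_gt n φ h3 hr, hZi, hZi, emod_eq n hr, emod_eq n hs, ex_add_int, ex_add_pi, smul_neg]
      rw [← h1 s r h3 hr]
      simp
  refine ⟨fun i j => EE (Z i) (psi n φ i j), ⟨?_, ?_, ?_, ?_⟩, ?_⟩
  · intro i j
    have e : Z (i + n) = Z i := by
      rw [hZi, hZi]
      congr 2
      simp
    change EE (Z (i + n)) (psi n φ (i + n) (j + n)) = EE (Z i) (psi n φ i j) + 2 * Real.pi
    rw [hK.per, e]
    have := EE_period (Z i) (psi n φ i j) 1
    simpa using this
  · intro i j hij hji
    exact EE_strictMono (hZ1 i) (hK.row i j hij hji)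
  · intro i j hij hji
    obtain ⟨t, ht, e1⟩ := hdir i j (by omega) hji
    obtain ⟨t', ht', e2⟩ := hdir (i + 1) j hij (by omega)
    have e3 : EE (Z i) (psi n φ i j) = EE (Z j) (psi n φ i j) := by
      rw [← EE_shift (Z i) t, ← e1]
      congr 1
      ring
    have e4 : EE (Z (i + 1)) (psi n φ (i + 1) j) = EE (Z j) (psi n φ (i + 1) j) := by
      rw [← EE_shift (Z (i + 1)) t', ← e2]
      congr 1
      ring
    rw [e3, e4]
    exact EE_strictMono (hZ1 j) (hK.col i j hij hji)
  · intro i
    obtain ⟨t, ht, e1⟩ := hdir i (i + 1) (by omega) (by omega)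
    have e3 : EE (Z i) (psi n φ i (i + 1)) = EE (Z (i + 1)) (psi n φ i (i + 1)) := by
      rw [← EE_shift (Z i) t, ← e1]
      congr 1
      ring
    rw [e3]
    exact EE_strictMono (hZ1 (i + 1)) (hK.diag i)
  · intro i j hij hji s hs hnorm
    obtain ⟨t, ht, e1⟩ := hdir i j hij hji
    rw [← hZi, ← hZi, e1, smul_smul] at hnorm ⊢
    exact exit_point (hZ1 i) (mul_pos hs ht) hnorm

end Pool.Agent.H64.CC
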