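import Pool.Agent.H64.Hyp4.Planar

/-!
# Directions of the sides and diagonals of a convex polygon

`z 0, …, z (n-1)` are points of the plane such that all triples `i < j < k` are positively oriented.
`exists_phi`: there are arguments `φ i j` of `z j - z i`, `i < j < n`, with
`φ i j < φ i k < φ j k < φ i j + π` for `i < j < k`.
-/

set_option autoImplicit false

namespace Pool.Agent.H64.CC

open Pool.Agent.H64.Hyp4

/-- the cross product -/
def cr (p q : ℂ) : ℝ := p.re * q.im - p.im * q.re

theorem ori_eq_cr (p q r : ℂ) : ori p q r = cr (q - p) (r - p) := by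
  unfold ori cr
  simp only [Complex.sub_re, Complex.sub_im]

theorem ori_eq_cr' (p q r : ℂ) : ori p q r = cr (q - p) (r - q) := by
  unfold ori cr
  simp only [Complex.sub_re, Complex.sub_im]
  ring

/-- the unit vector with angle `θ` -/
noncomputable def ex (θ : ℝ) : ℂ := Complex.exp (θ * Complex.I)

theorem ex_re (θ : ℝ) : (ex θ).re = Real.cos θ := Complex.exp_ofReal_mul_I_re θ

theorem ex_im (θ : ℝ) : (ex θ).im = Real.sin θ := Complex.exp_ofReal_mul_I_im θ

theorem norm_ex (θ : ℝ) : ‖ex θ‖ = 1 := Complex.norm_exp_ofReal_mul_I θ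

theorem ex_ne (θ : ℝ) : ex θ ≠ 0 := Complex.exp_ne_zero _

theorem ex_add (a b : ℝ) : ex (a + b) = ex a * ex b := by
  unfold ex
  push_cast
  rw [add_mul, Complex.exp_add]

theorem ex_add_pi (a : ℝ) : ex (a + Real.pi) = -ex a := by
  rw [ex_add]
  unfold ex
  rw [Complex.exp_pi_mul_I]
  ring

theorem ex_add_int (a : ℝ) (m : ℤ) : ex (a + 2 * Real.pi * m) = ex a := by
  rw [ex_add]
  have : ex (2 * Real.pi * m) = 1 := by
    unfold ex
    push_cast
    rw [show (2 * (Real.pi : ℂ) * m * Complex.I) = m * (2 * Real.pi * Complex.I) by ring]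
    exact Complex.exp_int_mul_two_pi_mul_I m
  rw [this, mul_one]

theorem cr_ex (r s a b : ℝ) : cr (r • ex a) (s • ex b) = r * s * Real.sin (b - a) := by
  unfold cr
  simp only [Complex.real_smul, Complex.mul_re, Complex.mul_im, Complex.ofReal_re,
    Complex.ofReal_im, ex_re, ex_im]
  rw [Real.sin_sub]
  ring

/-- an argument in a given period -/
theorem exists_arg (β : ℝ) {w : ℂ} (hw : w ≠ 0) :
    ∃ θ : ℝ, β ≤ θ ∧ θ < β + 2 * Real.pi ∧ w = ‖w‖ • ex θ := by
  obtain ⟨θ, h1, h2, h3⟩ := exists_pt (w₀ := ex β) (r := w / (‖w‖ : ℂ)) (norm_ex β) (by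
    rw [norm_div, Complex.norm_real, norm_norm, div_self (norm_ne_zero_iff.2 hw)])
  refine ⟨β + θ, by linarith, by linarith, ?_⟩
  have h4 : ((‖w‖ : ℝ) : ℂ) ≠ 0 := by exact_mod_cast norm_ne_zero_iff.2 hw
  rw [div_eq_iff h4] at h3
  rw [ex_add, Complex.real_smul]
  unfold pt at h3
  conv_lhs => rw [h3]
  unfold ex
  ring

theorem sin_pos_cases {d : ℝ} (h : 0 < Real.sin d) (h1 : -(2 * Real.pi) < d)
    (h2 : d < 2 * Real.pi) : (0 < d ∧ d < Real.pi) ∨ d < -Real.pi := by
  by_contra hcon
  push Not at hcon
  obtain ⟨h3, h4⟩ := hcon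
  rcases le_or_gt d 0 with h5 | h5
  · have := Real.sin_nonpos_of_nonpos_of_neg_pi_le h5 h4
    linarith
  · have h6 := h3 h5
    have h7 : 0 ≤ Real.sin (d - Real.pi) :=
      Real.sin_nonneg_of_nonneg_of_le_pi (by linarith) (by linarith)
    rw [Real.sin_sub_pi] at h7
    linarith

/-- heights in a convex polygon have no interior minimum -/
theorem unimodal {e a b c : ℂ} (hb : 0 < cr e b) (hab : 0 < cr a b) (hbc : 0 < cr b c)
    (habc : 0 < cr (b - a) (c - b)) (h1 : cr e b < cr e a) (h2 : cr e b ≤ cr e c) : False := by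
  have key : cr e b * cr a c = cr e a * cr b c + cr e c * cr a b := by unfold cr; ring
  have h3 : cr (b - a) (c - b) = cr a b + cr b c - cr a c := by
    unfold cr
    simp only [Complex.sub_re, Complex.sub_im]
    ring
  rw [h3] at habc
  have h4 := mul_lt_mul_of_pos_right h1 hbc
  have h5 := mul_le_mul_of_nonneg_right h2 hab.le
  have h6 := mul_pos hb habc
  nlinarith

/-- arguments of the differences -/
theorem exists_phi (n : ℕ) (z : ℕ → ℂ)
    (H : ∀ i j k, i < j → j < k → k < n → 0 < ori (z i) (z j) (z k))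
    (hne : ∀ i j, i < j → j < n → z i ≠ z j) :
    ∃ φ : ℕ → ℕ → ℝ, (∀ i j, i < j → j < n → z j - z i = ‖z j - z i‖ • ex (φ i j)) ∧
      ∀ i j k, i < j → j < k → k < n → φ i j < φ i k ∧ φ i k < φ j k ∧ φ j k < φ i j + Real.pi := by
  obtain ⟨e, he⟩ : ∃ e : ℂ, e = z 1 - z 0 := ⟨_, rfl⟩
  have hpi := Real.pi_pos
  have hex : ∀ i j, ∃ θ : ℝ, i < j → j < n → Complex.arg e ≤ θ ∧ θ < Complex.arg e + 2 * Real.pi ∧
      z j - z i = ‖z j - z i‖ • ex θ := by
    intro i j
    by_cases h : i < j ∧ j < n
    · obtain ⟨θ, h1, h2, h3⟩ := exists_arg (Complex.arg e) (sub_ne_zero.2 (hne i j h.1 h.2).symm)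
      exact ⟨θ, fun _ _ => ⟨h1, h2, h3⟩⟩
    · exact ⟨0, fun h1 h2 => absurd ⟨h1, h2⟩ h⟩
  choose φ hφ using hex
  refine ⟨φ, fun i j h1 h2 => (hφ i j h1 h2).2.2, ?_⟩
  intro i j k hij hjk hk
  have hjn : j < n := hjk.trans hk
  have hik : i < k := hij.trans hjk
  have hpos : ∀ i j, i < j → j < n → 0 < ‖z j - z i‖ := fun i j h1 h2 =>
    norm_pos_iff.2 (sub_ne_zero.2 (hne i j h1 h2).symm)
  have he0 : e ≠ 0 := by
    rw [he]
    exact sub_ne_zero.2 (hne 0 1 one_pos (by omega)).symm
  have hee : e = ‖e‖ • ex (Complex.arg e) := by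
    rw [Complex.real_smul]
    exact (Complex.norm_mul_exp_arg_mul_I e).symm
  obtain ⟨a1, a2, a3⟩ := hφ i j hij hjn
  obtain ⟨b1, b2, b3⟩ := hφ j k hjk hk
  obtain ⟨c1, c2, c3⟩ := hφ i k hik hk
  have s1 : 0 < Real.sin (φ j k - φ i j) := by
    have h := H i j k hij hjk hk
    rw [ori_eq_cr', a3, b3, cr_ex] at h
    exact pos_of_mul_pos_right h (mul_pos (hpos i j hij hjn) (hpos j k hjk hk)).le
  have s2 : 0 < Real.sin (φ i k - φ i j) := by
    have h := H i j k hij hjk hk
    rw [ori_eq_cr, a3, c3, cr_ex] at h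
    exact pos_of_mul_pos_right h (mul_pos (hpos i j hij hjn) (hpos i k hik hk)).le
  have s3 : 0 < Real.sin (φ j k - φ i k) := by
    have h : 0 < cr (z k - z i) (z k - z j) := by
      have h := H i j k hij hjk hk
      unfold ori at h
      unfold cr
      simp only [Complex.sub_re, Complex.sub_im]
      linarith
    rw [b3, c3, cr_ex] at h
    exact pos_of_mul_pos_right h (mul_pos (hpos i k hik hk) (hpos j k hjk hk)).le
  have main : 0 < φ j k - φ i j ∧ φ j k - φ i j < Real.pi := by
    rcases sin_pos_cases s1 (by linarith) (by linarith) with h | h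
    · exact h
    · exfalso
      -- heights
      have t1 : cr e (z j - z i) < 0 := by
        rw [hee, a3, cr_ex]
        have h4 : Real.sin (φ i j - Complex.arg e) < 0 := by
          have : 0 < Real.sin (φ i j - Complex.arg e - Real.pi) :=
            Real.sin_pos_of_pos_of_lt_pi (by linarith) (by linarith)
          rw [Real.sin_sub_pi] at this
          linarith
        exact mul_neg_of_pos_of_neg (mul_pos (norm_pos_iff.2 he0) (hpos i j hij hjn)) h4
      have t2 : 0 ≤ cr e (z k - z j) := by
        rw [hee, b3, cr_ex]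
        have h4 : 0 ≤ Real.sin (φ j k - Complex.arg e) :=
          Real.sin_nonneg_of_nonneg_of_le_pi (by linarith) (by linarith)
        exact mul_nonneg (mul_pos (norm_pos_iff.2 he0) (hpos j k hjk hk)).le h4
      rcases Nat.eq_zero_or_pos i with hi | hi
      · subst hi
        have h5 : 0 ≤ cr e (z j - z 0) := by
          rcases Nat.lt_or_ge 1 j with h6 | h6
          · have := H 0 1 j one_pos h6 hjn
            rw [ori_eq_cr, ← he] at this
            exact this.le
          · have : j = 1 := by omega
            rw [this, ← he]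
            unfold cr
            apply le_of_eq
            ring
        linarith
      · have hb : 0 < cr e (z j - z 0) := by
          have := H 0 1 j one_pos (by omega) hjn
          rw [ori_eq_cr, ← he] at this
          exact this
        have hab : 0 < cr (z i - z 0) (z j - z 0) := by
          have := H 0 i j hi hij hjn
          rwa [ori_eq_cr] at this
        have hbc : 0 < cr (z j - z 0) (z k - z 0) := by
          have := H 0 j k (by omega) hjk hk
          rwa [ori_eq_cr] at this
        have habc : 0 < cr (z j - z 0 - (z i - z 0)) (z k - z 0 - (z j - z 0)) := by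
          have := H i j k hij hjk hk
          rw [ori_eq_cr'] at this
          simpa using this
        refine unimodal hb hab hbc habc ?_ ?_
        · have : cr e (z j - z 0) - cr e (z i - z 0) = cr e (z j - z i) := by
            unfold cr
            simp only [Complex.sub_re, Complex.sub_im]
            ring
          linarith
        · have : cr e (z k - z 0) - cr e (z j - z 0) = cr e (z k - z j) := by
            unfold cr
            simp only [Complex.sub_re, Complex.sub_im]
            ring
          linarith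
  have d1 := sin_pos_cases s2 (by linarith) (by linarith)
  have d2 := sin_pos_cases s3 (by linarith) (by linarith)
  rcases d1 with d1 | d1 <;> rcases d2 with d2 | d2
  · exact ⟨by linarith, by linarith, by linarith [main.2]⟩
  · exfalso; linarith [main.1]
  · exfalso; linarith [main.2]
  · exfalso; linarith [main.1]

end Pool.Agent.H64.CC
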