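import Pool.Agent.H64.CC.Dir

/-!
# Counterclockwise enumeration of points in convex position
-/

set_option autoImplicit false

namespace Pool.Agent.H64.CC

open Pool.Agent.H64.Hyp4

theorem mem_hull_three {s : Set ℂ} {p q r w : ℂ} (hp : p ∈ s) (hq : q ∈ s) (hr : r ∈ s)
    {a b c : ℝ} (ha : 0 ≤ a) (hb : 0 ≤ b) (hc : 0 ≤ c) (habc : a + b + c = 1)
    (hw : w = a • p + b • q + c • r) : w ∈ convexHull ℝ s := by
  have h := (convex_convexHull ℝ s).sum_mem (t := Finset.univ) (w := ![a, b, c])
    (z := ![p, q, r]) (by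
      intro i _
      fin_cases i
      · exact ha
      · exact hb
      · exact hc) (by
      rw [Fin.sum_univ_three]
      exact habc) (by
      intro i _
      fin_cases i
      · exact subset_convexHull ℝ s hp
      · exact subset_convexHull ℝ s hq
      · exact subset_convexHull ℝ s hr)
  rw [Fin.sum_univ_three] at h
  rw [hw]
  exact h

/-- the separating functional -/
theorem exists_sep {n : ℕ} {y : Fin n → ℂ} (hy : ConvexIndependent ℝ y) (o : Fin n) :
    ∃ c : ℂ, ∀ j, j ≠ o → 0 < c.re * (y j - y o).re + c.im * (y j - y o).im := by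
  have hnot : y o ∉ convexHull ℝ (y '' {j | j ≠ o}) := by
    intro h
    exact hy _ _ h rfl
  have hclosed : IsClosed (convexHull ℝ (y '' {j | j ≠ o})) :=
    (Set.toFinite _).isClosed_convexHull ℝ
  obtain ⟨f, u, h1, h2⟩ := geometric_hahn_banach_point_closed (convex_convexHull ℝ _) hclosed hnot
  refine ⟨⟨f 1, f Complex.I⟩, fun j hj => ?_⟩
  have h3 := h2 (y j) (subset_convexHull ℝ _ ⟨j, hj, rfl⟩)
  have h4 : f (y j - y o) = (y j - y o).re * f 1 + (y j - y o).im * f Complex.I := by
    have e : y j - y o = (y j - y o).re • (1 : ℂ) + (y j - y o).im • Complex.I := by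
      apply Complex.ext
      · simp
      · simp
    conv_lhs => rw [e]
    rw [map_add, map_smul, map_smul, smul_eq_mul, smul_eq_mul]
  rw [map_sub] at h4
  change 0 < f 1 * (y j - y o).re + f Complex.I * (y j - y o).im
  linarith

theorem exists_enum {n : ℕ} {y : Fin n → ℂ} (hy : ConvexIndependent ℝ y) :
    ∃ σ : Equiv.Perm (Fin n), ∀ i j k, i < j → j < k → 0 < ori (y (σ i)) (y (σ j)) (y (σ k)) := by
  classical
  rcases Nat.eq_zero_or_pos n with h0 | h0
  · subst h0
    exact ⟨Equiv.refl _, fun i => i.elim0⟩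
  obtain ⟨o, ho⟩ : ∃ o : Fin n, o = ⟨0, h0⟩ := ⟨_, rfl⟩
  obtain ⟨c, hc⟩ := exists_sep hy o
  obtain ⟨f, hf⟩ : ∃ f : Fin n → ℝ, f = fun j => c.re * (y j - y o).re + c.im * (y j - y o).im :=
    ⟨_, rfl⟩
  obtain ⟨g, hg⟩ : ∃ g : Fin n → ℝ, g = fun j => c.re * (y j - y o).im - c.im * (y j - y o).re :=
    ⟨_, rfl⟩
  have hfpos : ∀ j, j ≠ o → 0 < f j := fun j hj => by rw [hf]; exact hc j hj
  have hfg : ∀ j k, f j * g k - g j * f k = (c.re ^ 2 + c.im ^ 2) * ori (y o) (y j) (y k) := by
    intro j k
    rw [hf, hg, ori_eq_cr]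
    unfold cr
    ring
  -- no three on a line
  have hcol : ∀ j k, j ≠ o → k ≠ o → j ≠ k → ori (y o) (y j) (y k) ≠ 0 := by
    intro j k hj hk hjk h
    have h1 := hfpos j hj
    have h2 := hfpos k hk
    have h3 : f j * g k = g j * f k := by
      have := hfg j k
      rw [h, mul_zero] at this
      linarith
    -- y k - y o = (f k / f j) (y j - y o)
    have hc0 : 0 < c.re ^ 2 + c.im ^ 2 := by
      by_contra hcon
      have a1 : c.re = 0 := by nlinarith [sq_nonneg c.re, sq_nonneg c.im]
      have a2 : c.im = 0 := by nlinarith [sq_nonneg c.re, sq_nonneg c.im]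
      have := hfpos j hj
      rw [hf] at this
      simp only [a1, a2] at this
      linarith
    have key : ∀ l m, l ≠ o → m ≠ o → l ≠ m → f l * g m = g l * f m → f m ≤ f l → False := by
      intro l m hl hm hlm h4 h5
      have b1 := hfpos l hl
      have b2 := hfpos m hm
      have hv : y m - y o = (f m / f l) • (y l - y o) := by
        have e1 : (c.re ^ 2 + c.im ^ 2) * (y m - y o).re = c.re * f m - c.im * g m := by
          rw [hf, hg]; ring
        have e2 : (c.re ^ 2 + c.im ^ 2) * (y m - y o).im = c.im * f m + c.re * g m := by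
          rw [hf, hg]; ring
        have e3 : (c.re ^ 2 + c.im ^ 2) * (y l - y o).re = c.re * f l - c.im * g l := by
          rw [hf, hg]; ring
        have e4 : (c.re ^ 2 + c.im ^ 2) * (y l - y o).im = c.im * f l + c.re * g l := by
          rw [hf, hg]; ring
        have h6 : g m = f m / f l * g l := by
          field_simp
          linarith
        apply Complex.ext
        · rw [Complex.smul_re, smul_eq_mul]
          apply mul_left_cancel₀ hc0.ne'
          rw [e1, h6, show (c.re ^ 2 + c.im ^ 2) * (f m / f l * (y l - y o).re) =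
            f m / f l * ((c.re ^ 2 + c.im ^ 2) * (y l - y o).re) by ring, e3]
          field_simp
        · rw [Complex.smul_im, smul_eq_mul]
          apply mul_left_cancel₀ hc0.ne'
          rw [e2, h6, show (c.re ^ 2 + c.im ^ 2) * (f m / f l * (y l - y o).im) =
            f m / f l * ((c.re ^ 2 + c.im ^ 2) * (y l - y o).im) by ring, e4]
          field_simp
      have hmem : y m ∈ convexHull ℝ (y '' {i | i ≠ m}) := by
        refine mem_hull_three (p := y o) (q := y l) (r := y l) ⟨o, hm.symm, rfl⟩ ⟨l, hlm, rfl⟩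
          ⟨l, hlm, rfl⟩ (a := 1 - f m / f l) (b := f m / f l) (c := 0) ?_ (by positivity) le_rfl
          (by ring) ?_
        · rw [sub_nonneg, div_le_one b1]
          exact h5
        · rw [← sub_add_cancel (y m) (y o), hv]
          simp only [smul_sub, sub_smul, one_smul, zero_smul, add_zero]
          ring
      exact hy _ _ hmem rfl
    rcases le_total (f k) (f j) with h6 | h6
    · exact key j k hj hk hjk h3 h6
    · exact key k j hk hj hjk.symm (by linarith) h6
  -- the sorting key
  obtain ⟨m, hm⟩ : ∃ m : ℝ, ∀ j, m < g j / f j := by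
    obtain ⟨j0, -, hj0⟩ := Finset.exists_min_image Finset.univ (fun j => g j / f j) ⟨o, Finset.mem_univ _⟩
    exact ⟨g j0 / f j0 - 1, fun j => by have := hj0 j (Finset.mem_univ j); linarith⟩
  obtain ⟨κ, hκ⟩ : ∃ κ : Fin n → ℝ, κ = fun j => if j = o then m else g j / f j := ⟨_, rfl⟩
  have hκo : κ o = m := by rw [hκ]; simp
  have hκj : ∀ j, j ≠ o → κ j = g j / f j := fun j hj => by rw [hκ]; simp [hj]
  have hinj : ∀ j k, j ≠ k → κ j ≠ κ k := by
    intro j k hjk h
    by_cases h1 : j = o
    · have h2 : k ≠ o := fun h2 => hjk (h1.trans h2.symm)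
      rw [h1, hκo, hκj k h2] at h
      exact (hm k).ne h
    · by_cases h2 : k = o
      · rw [h2, hκo, hκj j h1] at h
        exact (hm j).ne h.symm
      · rw [hκj j h1, hκj k h2, div_eq_div_iff (hfpos j h1).ne' (hfpos k h2).ne'] at h
        have h3 := hfg j k
        have h4 : f j * g k - g j * f k = 0 := by linarith
        rw [h4] at h3
        have hc0 : c.re ^ 2 + c.im ^ 2 ≠ 0 := by
          intro h5
          have a1 : c.re = 0 := by nlinarith [sq_nonneg c.re, sq_nonneg c.im]
          have a2 : c.im = 0 := by nlinarith [sq_nonneg c.re, sq_nonneg c.im]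
          have := hfpos j h1
          rw [hf] at this
          simp only [a1, a2] at this
          linarith
        exact hcol j k h1 h2 hjk ((mul_eq_zero.1 h3.symm).resolve_left hc0)
  have hlt : ∀ j k, j ≠ o → k ≠ o → κ j < κ k → 0 < ori (y o) (y j) (y k) := by
    intro j k hj hk h
    rw [hκj j hj, hκj k hk, div_lt_div_iff₀ (hfpos j hj) (hfpos k hk)] at h
    have h3 := hfg j k
    have h4 : 0 < (c.re ^ 2 + c.im ^ 2) * ori (y o) (y j) (y k) := by
      rw [← h3]
      linarith
    exact pos_of_mul_pos_right h4 (by positivity)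
  obtain ⟨σ, hσ⟩ : ∃ σ : Equiv.Perm (Fin n), σ = Tuple.sort κ := ⟨_, rfl⟩
  have hmono : ∀ i j, i < j → κ (σ i) < κ (σ j) := by
    intro i j hij
    have h1 : κ (σ i) ≤ κ (σ j) := by
      rw [hσ]
      exact Tuple.monotone_sort κ hij.le
    exact lt_of_le_of_ne h1 (hinj _ _ fun h => hij.ne (σ.injective h))
  have hne : ∀ i j, i < j → σ j ≠ o := by
    intro i j hij h
    have h1 := hmono i j hij
    rw [h, hκo] at h1
    by_cases h2 : σ i = o
    · rw [h2, hκo] at h1
      exact lt_irrefl _ h1
    · rw [hκj _ h2] at h1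
      exact lt_asymm h1 (hm _)
  refine ⟨σ, fun i j k hij hjk => ?_⟩
  have hj := hne i j hij
  have hk := hne j k hjk
  have h1 := hlt _ _ hj hk (hmono j k hjk)
  by_cases hi : σ i = o
  · rw [hi]
    exact h1
  · have h2 := hlt _ _ hi hj (hmono i j hij)
    have h3 := hlt _ _ hi hk (hmono i k (hij.trans hjk))
    by_contra hcon
    push Not at hcon
    have h4 := ori_four (y o) (y (σ i)) (y (σ j)) (y (σ k))
    have hmem : y (σ j) ∈ convexHull ℝ (y '' {l | l ≠ σ j}) := by
      have hij' : σ i ≠ σ j := fun h => hij.ne (σ.injective h)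
      have hjk' : σ k ≠ σ j := fun h => hjk.ne (σ.injective h).symm
      obtain ⟨D, hD⟩ : ∃ D : ℝ, D = ori (y o) (y (σ i)) (y (σ k)) := ⟨_, rfl⟩
      rw [← hD] at h3
      refine mem_hull_three (p := y o) (q := y (σ i)) (r := y (σ k)) ⟨o, hj.symm, rfl⟩
        ⟨_, hij', rfl⟩ ⟨_, hjk', rfl⟩ (a := -ori (y (σ i)) (y (σ j)) (y (σ k)) / D)
        (b := ori (y o) (y (σ j)) (y (σ k)) / D) (c := ori (y o) (y (σ i)) (y (σ j)) / D)
        (div_nonneg (by linarith) h3.le) (div_nonneg h1.le h3.le) (div_nonneg h2.le h3.le) ?_ ?_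
      · field_simp
        rw [hD]
        linarith
      · have hDc : (D : ℂ) ≠ 0 := by exact_mod_cast h3.ne'
        apply Complex.ext
        · simp only [Complex.add_re, Complex.smul_re, smul_eq_mul]
          field_simp
          rw [hD]
          unfold ori
          ring
        · simp only [Complex.add_im, Complex.smul_im, smul_eq_mul]
          field_simp
          rw [hD]
          unfold ori
          ring
    exact hy _ _ hmem rfl

end Pool.Agent.H64.CC
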