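import Pool.Agent.H64.CC.Dir

/-!
# The exit angle

`EE z ψ` is the angle of the point where the ray from `z` in the direction `ψ` leaves the unit disc.
-/

set_option autoImplicit false

namespace Pool.Agent.H64.CC

open Pool.Agent.H64.Hyp4

/-- the exit angle -/
noncomputable def EE (z : ℂ) (ψ : ℝ) : ℝ := ψ + Real.arcsin (cr (ex ψ) z)

theorem EE_period (z : ℂ) (ψ : ℝ) (m : ℤ) :
    EE z (ψ + 2 * Real.pi * m) = EE z ψ + 2 * Real.pi * m := by
  unfold EE
  rw [ex_add_int]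
  ring

theorem EE_shift (z : ℂ) (t ψ : ℝ) : EE (z + t • ex ψ) ψ = EE z ψ := by
  unfold EE
  have : cr (ex ψ) (z + t • ex ψ) = cr (ex ψ) z := by
    unfold cr
    simp only [Complex.add_re, Complex.add_im, Complex.real_smul, Complex.mul_re, Complex.mul_im,
      Complex.ofReal_re, Complex.ofReal_im]
    ring
  rw [this]

theorem cr_sq_add (z : ℂ) (ψ : ℝ) :
    cr (ex ψ) z ^ 2 + (Real.cos ψ * z.re + Real.sin ψ * z.im) ^ 2 = z.re ^ 2 + z.im ^ 2 := by
  unfold cr
  rw [ex_re, ex_im]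
  linear_combination (z.re ^ 2 + z.im ^ 2) * Real.sin_sq_add_cos_sq ψ

theorem norm_sq_lt {z : ℂ} (hz : ‖z‖ < 1) : z.re ^ 2 + z.im ^ 2 < 1 := by
  have h := Complex.sq_norm z
  rw [Complex.normSq_apply] at h
  have := norm_nonneg z
  nlinarith

theorem EE_strictMono {z : ℂ} (hz : ‖z‖ < 1) : StrictMono (EE z) := by
  apply strictMono_of_deriv_pos
  intro ψ
  have hlt := norm_sq_lt hz
  have h0 := cr_sq_add z ψ
  obtain ⟨x, hx⟩ : ∃ x, x = cr (ex ψ) z := ⟨_, rfl⟩
  obtain ⟨c, hc⟩ : ∃ c, c = Real.cos ψ * z.re + Real.sin ψ * z.im := ⟨_, rfl⟩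
  rw [← hx, ← hc] at h0
  have hx1 : x ^ 2 < 1 := by nlinarith [sq_nonneg c]
  have hxne1 : x ≠ 1 := by
    rintro rfl
    norm_num at hx1
  have hxnem1 : x ≠ -1 := by
    rintro rfl
    norm_num at hx1
  have hd1 : HasDerivAt (fun ψ => cr (ex ψ) z) (-c) ψ := by
    have e : (fun ψ => cr (ex ψ) z) = fun ψ => Real.cos ψ * z.im - Real.sin ψ * z.re := by
      funext ψ
      unfold cr
      rw [ex_re, ex_im]
    rw [e]
    have h1 := ((Real.hasDerivAt_cos ψ).mul_const z.im).sub ((Real.hasDerivAt_sin ψ).mul_const z.re)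
    have h2 : -c = -Real.sin ψ * z.im - Real.cos ψ * z.re := by
      rw [hc]
      ring
    rw [h2]
    exact h1
  have hd2 : HasDerivAt (EE z) (1 + 1 / Real.sqrt (1 - x ^ 2) * (-c)) ψ := by
    have h1 := (Real.hasDerivAt_arcsin hxnem1 hxne1)
    rw [hx] at h1
    have h2 := (hasDerivAt_id ψ).add (h1.comp ψ hd1)
    rw [← hx] at h2
    exact h2
  rw [hd2.deriv]
  have hs : 0 < Real.sqrt (1 - x ^ 2) := Real.sqrt_pos.2 (by linarith)
  have h1 : c < Real.sqrt (1 - x ^ 2) := by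
    apply Real.lt_sqrt_of_sq_lt
    linarith
  have h2 : 1 / Real.sqrt (1 - x ^ 2) * (-c) = -(c / Real.sqrt (1 - x ^ 2)) := by ring
  rw [h2]
  have h3 : c / Real.sqrt (1 - x ^ 2) < 1 := by
    rw [div_lt_one hs]
    exact h1
  linarith

/-- the exit point -/
theorem exit_point {z : ℂ} (hz : ‖z‖ < 1) {s ψ : ℝ} (hs : 0 < s) (h : ‖z + s • ex ψ‖ = 1) :
    z + s • ex ψ = ex (EE z ψ) := by
  have hlt := norm_sq_lt hz
  have h0 := cr_sq_add z ψ
  obtain ⟨x, hx⟩ : ∃ x, x = cr (ex ψ) z := ⟨_, rfl⟩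
  obtain ⟨c, hc⟩ : ∃ c, c = Real.cos ψ * z.re + Real.sin ψ * z.im := ⟨_, rfl⟩
  rw [← hx, ← hc] at h0
  have hx' : x = Real.cos ψ * z.im - Real.sin ψ * z.re := by
    rw [hx]
    unfold cr
    rw [ex_re, ex_im]
  have hx1 : x ^ 2 < 1 := by nlinarith [sq_nonneg c]
  have hcs := Real.sin_sq_add_cos_sq ψ
  have h1 : (z.re + s * Real.cos ψ) ^ 2 + (z.im + s * Real.sin ψ) ^ 2 = 1 := by
    have h2 := Complex.sq_norm (z + s • ex ψ)
    rw [h, Complex.normSq_apply] at h2
    simp only [Complex.add_re, Complex.add_im, Complex.real_smul, Complex.mul_re, Complex.mul_im,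
      Complex.ofReal_re, Complex.ofReal_im, ex_re, ex_im] at h2
    nlinarith
  have h2 : (s + c) ^ 2 = 1 - x ^ 2 := by
    have : (s + c) ^ 2 + x ^ 2 = (z.re + s * Real.cos ψ) ^ 2 + (z.im + s * Real.sin ψ) ^ 2 := by
      rw [hc, hx']
      linear_combination (z.re ^ 2 + z.im ^ 2 - s ^ 2) * hcs
    linarith
  have hsq : 0 < Real.sqrt (1 - x ^ 2) := Real.sqrt_pos.2 (by linarith)
  have h3 : -c < Real.sqrt (1 - x ^ 2) := by
    apply Real.lt_sqrt_of_sq_lt
    nlinarith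
  have h4 : s + c = Real.sqrt (1 - x ^ 2) := by
    have h5 : (s + c) ^ 2 = Real.sqrt (1 - x ^ 2) ^ 2 := by
      rw [h2, Real.sq_sqrt (by linarith)]
    rcases sq_eq_sq_iff_eq_or_eq_neg.1 h5 with h6 | h6
    · exact h6
    · exfalso
      linarith
  have hsin : Real.sin (Real.arcsin x) = x := Real.sin_arcsin (by nlinarith) (by nlinarith)
  have hcos : Real.cos (Real.arcsin x) = s + c := by rw [Real.cos_arcsin, h4]
  unfold EE
  rw [← hx]
  apply Complex.ext
  · rw [ex_re, Real.cos_add, hsin, hcos]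
    simp only [Complex.add_re, Complex.real_smul, Complex.mul_re,
      Complex.ofReal_re, Complex.ofReal_im, ex_re, ex_im]
    rw [hc, hx']
    linear_combination (-z.re) * hcs
  · rw [ex_im, Real.sin_add, hsin, hcos]
    simp only [Complex.add_im, Complex.real_smul, Complex.mul_im,
      Complex.ofReal_re, Complex.ofReal_im, ex_re, ex_im]
    rw [hc, hx']
    linear_combination (-z.im) * hcs

end Pool.Agent.H64.CC
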