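import Pool.Agent.H64.CC.Arr
import Pool.Agent.H40.Atiyah.Form

/-!
# From functionals on real polynomials to complex linear independence
-/

set_option autoImplicit false

namespace Pool.Agent.H64.CC

open Polynomial
open Pool.Agent.H40.Atiyah (KArr S P)

/-- the real form of a row -/
noncomputable def rowP (n : ℕ) (u : ℤ → ℤ → ℝ) (i : ℤ) : ℝ[X] :=
  ∏ l ∈ Finset.Ioo i (i + n), (C (Real.cos (u i l / 2)) * X - C (Real.sin (u i l / 2)))

/-- only the zero functional kills all rows -/
def CoreStmt : Prop := ∀ (n : ℕ) (u : ℤ → ℤ → ℝ), 2 ≤ n → KArr n u → ∀ h : ℝ[X] →ₗ[ℝ] ℝ,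
  (∀ q ∈ Finset.Ico (0 : ℤ) n, h (P (u q) (Finset.Ioo q (q + n))) = 0) →
    ∀ f ∈ degreeLT ℝ n, h f = 0

theorem natDegree_rowP (n : ℕ) (u : ℤ → ℤ → ℝ) (i : ℤ) : (rowP n u i).natDegree ≤ n - 1 := by
  unfold rowP
  refine (natDegree_prod_le _ _).trans ?_
  have h1 : ∀ l ∈ Finset.Ioo i (i + n),
      (C (Real.cos (u i l / 2)) * X - C (Real.sin (u i l / 2))).natDegree ≤ 1 := by
    intro l _
    refine (natDegree_sub_le _ _).trans (max_le ?_ ?_)
    · exact (natDegree_C_mul_le _ _).trans natDegree_X_le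
    · rw [natDegree_C]
      exact Nat.zero_le _
  refine (Finset.sum_le_sum h1).trans ?_
  rw [Finset.sum_const, smul_eq_mul, mul_one, Int.card_Ioo]
  omega

theorem degree_rowP {n : ℕ} (hn : 1 ≤ n) (u : ℤ → ℤ → ℝ) (i : ℤ) : (rowP n u i).degree < n := by
  rcases eq_or_ne (rowP n u i) 0 with h | h
  · rw [h, degree_zero]
    exact WithBot.bot_lt_coe _
  · rw [← natDegree_lt_iff_degree_lt h]
    have := natDegree_rowP n u i
    omega

theorem real_indep (hcore : CoreStmt) {n : ℕ} (hn : 2 ≤ n) {u : ℤ → ℤ → ℝ} (hu : KArr n u) :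
    LinearIndependent ℝ (fun i : Fin n => rowP n u (i : ℕ)) := by
  have hspan : Submodule.span ℝ (Set.range fun i : Fin n => rowP n u (i : ℕ)) = degreeLT ℝ n := by
    apply le_antisymm
    · rw [Submodule.span_le]
      rintro _ ⟨i, rfl⟩
      exact mem_degreeLT.2 (degree_rowP (by omega) u _)
    · intro f hf
      by_contra hcon
      obtain ⟨h, h1, h2⟩ := Submodule.exists_le_ker_of_notMem hcon
      apply h1
      refine hcore n u hn hu h (fun q hq => ?_) f hf
      rw [Finset.mem_Ico] at hq
      have hq' : q.toNat < n := by omega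
      have h3 := h2 (Submodule.subset_span ⟨⟨q.toNat, hq'⟩, rfl⟩)
      have h4 : ((q.toNat : ℕ) : ℤ) = q := Int.toNat_of_nonneg hq.1
      simp only [h4] at h3
      exact h3
  rw [linearIndependent_iff_card_eq_finrank_span]
  unfold Set.finrank
  rw [hspan, LinearEquiv.finrank_eq (degreeLTEquiv ℝ n)]
  simp

theorem complex_indep (hcore : CoreStmt) {n : ℕ} (hn : 2 ≤ n) {u : ℤ → ℤ → ℝ} (hu : KArr n u)
    (G : Fin n → ℂ)
    (h : ∑ i : Fin n, C (G i) * (rowP n u (i : ℕ)).map Complex.ofRealHom = 0) : ∀ i, G i = 0 := by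
  have hli := Fintype.linearIndependent_iff.1 (real_indep hcore hn hu)
  have hk : ∀ k : ℕ, ∑ i : Fin n, G i * (((rowP n u (i : ℕ)).coeff k : ℝ) : ℂ) = 0 := by
    intro k
    have h1 := congrArg (fun q : ℂ[X] => q.coeff k) h
    simp only [finsetSum_coeff, coeff_C_mul, coeff_map, coeff_zero,
      Complex.ofRealHom_eq_coe] at h1
    exact h1
  have hre := hli (fun i => (G i).re) (by
    ext k
    have h1 := congrArg Complex.re (hk k)
    rw [Complex.re_sum] at h1
    simp only [Complex.re_mul_ofReal, Complex.zero_re] at h1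
    simp only [finsetSum_coeff, coeff_smul, smul_eq_mul, coeff_zero]
    exact h1)
  have him := hli (fun i => (G i).im) (by
    ext k
    have h1 := congrArg Complex.im (hk k)
    rw [Complex.im_sum] at h1
    simp only [Complex.im_mul_ofReal, Complex.zero_im] at h1
    simp only [finsetSum_coeff, coeff_smul, smul_eq_mul, coeff_zero]
    exact h1)
  intro i
  exact Complex.ext (hre i) (him i)

/-- the column of the strip above a vertex -/
def lft {n : ℕ} (a b : Fin n) : ℤ := if a < b then ((b : ℕ) : ℤ) else ((b : ℕ) : ℤ) + n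

theorem lft_mem {n : ℕ} {a b : Fin n} (hab : b ≠ a) :
    ((a : ℕ) : ℤ) < lft a b ∧ lft a b < (a : ℕ) + n := by
  have ha := a.2
  have hb := b.2
  have hne : (b : ℕ) ≠ (a : ℕ) := fun h => hab (Fin.ext h)
  unfold lft
  split_ifs with h
  · have h' : (a : ℕ) < (b : ℕ) := h
    omega
  · have h' : ¬ (a : ℕ) < (b : ℕ) := h
    omega

theorem lft_mod {n : ℕ} (a b : Fin n) : (lft a b % (n : ℤ)).toNat = (b : ℕ) := by
  have hb := b.2
  unfold lft
  split_ifs with h
  · rw [Int.emod_eq_of_lt (by omega) (by omega)]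
    simp
  · rw [Int.add_emod_right, Int.emod_eq_of_lt (by omega) (by omega)]
    simp

theorem prod_lft {M : Type*} [CommMonoid M] {n : ℕ} (a : Fin n) (F : ℤ → M) :
    ∏ l ∈ Finset.Ioo (((a : ℕ) : ℤ)) (((a : ℕ) : ℤ) + n), F l =
      ∏ b ∈ Finset.univ.erase a, F (lft a b) := by
  symm
  have ha := a.2
  refine Finset.prod_bij (fun b _ => lft a b) ?_ ?_ ?_ ?_
  · intro b hb
    rw [Finset.mem_Ioo]
    exact lft_mem (Finset.ne_of_mem_erase hb)
  · intro b _ b' _ h
    have h1 := lft_mod a b
    rw [h, lft_mod] at h1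
    exact Fin.ext h1.symm
  · intro l hl
    rw [Finset.mem_Ioo] at hl
    have hn : (0 : ℤ) < n := by omega
    have h1 := Int.emod_nonneg l hn.ne'
    have h2 := Int.emod_lt_of_pos l hn
    have h3 := Int.ediv_mul_add_emod l n
    rcases lt_or_ge l (n : ℤ) with h4 | h4
    · refine ⟨⟨l.toNat, by omega⟩, ?_, ?_⟩
      · rw [Finset.mem_erase]
        refine ⟨fun h => ?_, Finset.mem_univ _⟩
        have := congrArg Fin.val h
        simp only at this
        omega
      · unfold lft
        have h5 : a < (⟨l.toNat, by omega⟩ : Fin n) := by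
          rw [Fin.lt_def]
          simp only
          omega
        rw [if_pos h5]
        simp only
        omega
    · refine ⟨⟨(l - n).toNat, by omega⟩, ?_, ?_⟩
      · rw [Finset.mem_erase]
        refine ⟨fun h => ?_, Finset.mem_univ _⟩
        have := congrArg Fin.val h
        simp only at this
        omega
      · unfold lft
        have h5 : ¬ a < (⟨(l - n).toNat, by omega⟩ : Fin n) := by
          rw [Fin.lt_def]
          simp only
          omega
        rw [if_neg h5]
        simp only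
        omega
  · intro b _
    rfl

end Pool.Agent.H64.CC
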