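import Pool.Agent.H64.CC.Spin
import Pool.Agent.H64.CC.Enum
import Pool.Agent.H64.CC.Lin

/-!
# Coplanar points in convex position
-/

set_option autoImplicit false

namespace Pool.Agent.H64.CC

open Polynomial
open Pool.Agent.H64.Hyp4
open Pool.Agent.Results.MP_1fedf0_gt.CollinearPlusOne

/-- a unit normal vector of a plane containing the points -/
theorem exists_normal {n : ℕ} (o : Fin n) {x : Fin n → Fin 3 → ℝ}
    (hcop : Coplanar ℝ (Set.range x)) : ∃ (m : Fin 3 → ℝ) (d : ℝ), ∑ k, m k ^ 2 = 1 ∧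
      ∀ i, ∑ k, m k * x i k = d := by
  have hfin : Module.finrank ℝ (Fin 3 → ℝ) = 3 := by simp
  have hne : vectorSpan ℝ (Set.range x) ≠ ⊤ := by
    intro h
    have h1 := hcop
    unfold Coplanar at h1
    rw [h, rank_top, rank_fun'] at h1
    norm_num at h1
  obtain ⟨f, hf, hker⟩ := Submodule.exists_le_ker_of_lt_top _ (lt_top_iff_ne_top.2 hne)
  obtain ⟨M, hM⟩ : ∃ M : Fin 3 → ℝ, M = fun k => f (Pi.single k 1) := ⟨_, rfl⟩
  have hfM : ∀ v : Fin 3 → ℝ, f v = ∑ k, M k * v k := by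
    intro v
    have hv : v = ∑ k, v k • (Pi.single k (1 : ℝ) : Fin 3 → ℝ) := by
      funext l
      rw [Finset.sum_apply]
      simp [Pi.single_apply]
    conv_lhs => rw [hv]
    rw [map_sum]
    refine Finset.sum_congr rfl fun k _ => ?_
    rw [map_smul, hM, smul_eq_mul]
    ring
  have hpos : 0 < ∑ k, M k ^ 2 := by
    rcases lt_or_eq_of_le (Finset.sum_nonneg fun k _ => sq_nonneg (M k) : 0 ≤ ∑ k, M k ^ 2) with h | h
    · exact h
    · exfalso
      apply hf
      ext v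
      have h1 := (Finset.sum_eq_zero_iff_of_nonneg (fun k _ => sq_nonneg (M k))).1 h.symm
      have h2 : ∀ k, M k = 0 := fun k => by
        have := h1 k (Finset.mem_univ k)
        simpa using this
      rw [LinearMap.comp_apply, hfM]
      simp [h2]
  obtain ⟨N, hN0, hN⟩ : ∃ N : ℝ, 0 < N ∧ N ^ 2 = ∑ k, M k ^ 2 :=
    ⟨Real.sqrt (∑ k, M k ^ 2), Real.sqrt_pos.2 hpos, Real.sq_sqrt hpos.le⟩
  refine ⟨fun k => M k / N, ∑ k, M k / N * x o k, ?_, fun i => ?_⟩
  · simp only [div_pow]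
    rw [← Finset.sum_div, ← hN, div_self (by positivity)]
  · have h1 : x i - x o ∈ vectorSpan ℝ (Set.range x) :=
      vsub_mem_vectorSpan ℝ ⟨i, rfl⟩ ⟨o, rfl⟩
    have h2 : f (x i - x o) = 0 := hker h1
    rw [hfM] at h2
    simp only [Fin.sum_univ_three, Pi.sub_apply] at h2 ⊢
    field_simp
    linarith

theorem convex_coplanar (hcore : CoreStmt) (n : ℕ) (x : Fin n → Fin 3 → ℝ)
    (p : Fin n → Fin n → Fin 3 → ℝ)
    (hx : ∀ i, ∑ k : Fin 3, (x i k) ^ 2 < 1)
    (hp : ∀ i j, i ≠ j → (∑ k : Fin 3, (p i j k) ^ 2 = 1) ∧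
      ∃ t : ℝ, 0 < t ∧ p i j = x i + t • (x j - x i))
    (hcop : Coplanar ℝ (Set.range x)) (hci : ConvexIndependent ℝ x) :
    LinearIndependent ℂ (fun i : Fin n =>
        ∏ j ∈ Finset.univ.erase i,
          (if p i j 2 = 1 then (1 : Polynomial ℂ) else
            Polynomial.X - Polynomial.C
              (((p i j 0 : ℂ) + (p i j 1 : ℂ) * Complex.I) / (1 - (p i j 2 : ℂ))))) := by
  classical
  rcases Nat.lt_or_ge n 2 with hn | hn
  · rcases Nat.eq_zero_or_pos n with h0 | h0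
    · subst h0
      exact linearIndependent_empty_type
    · obtain rfl : n = 1 := by omega
      refine LinearIndependent.of_subsingleton (0 : Fin 1) ?_
      have : Finset.univ.erase (0 : Fin 1) = ∅ := by decide
      simp only [this, Finset.prod_empty]
      exact one_ne_zero
  obtain ⟨o, ho⟩ : ∃ o : Fin n, o = ⟨0, by omega⟩ := ⟨_, rfl⟩
  obtain ⟨m, d, hm, hd⟩ := exists_normal o hcop
  have hdd : d ^ 2 < 1 := by
    have h1 := Finset.sum_mul_sq_le_sq_mul_sq Finset.univ m (x o)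
    rw [hd o, hm, one_mul] at h1
    exact lt_of_le_of_lt h1 (hx o)
  obtain ⟨y, z, hy, hy1, hinf, hyp⟩ :=
    exists_disc hm hx hd (by nlinarith) (by nlinarith) hci
  obtain ⟨σ, hσ⟩ := exists_enum hy
  obtain ⟨Z, hZ⟩ : ∃ Z : ℕ → ℂ, ∀ a : Fin n, Z (a : ℕ) = y (σ a) := by
    refine ⟨fun a => if h : a < n then y (σ ⟨a, h⟩) else 0, fun a => ?_⟩
    simp only [a.2, dif_pos, Fin.eta]
  obtain ⟨u, hu, hexit⟩ := exists_karr n hn Z (fun i hi => by
    rw [show i = ((⟨i, hi⟩ : Fin n) : ℕ) from rfl, hZ]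
    exact hy1 _) (fun i j k hij hjk hk => by
    have hj : j < n := hjk.trans hk
    have hi : i < n := hij.trans hj
    rw [show i = ((⟨i, hi⟩ : Fin n) : ℕ) from rfl, show j = ((⟨j, hj⟩ : Fin n) : ℕ) from rfl,
      show k = ((⟨k, hk⟩ : Fin n) : ℕ) from rfl, hZ, hZ, hZ]
    exact hσ _ _ _ hij hjk) (fun i j hij hj => by
    have hi : i < n := hij.trans hj
    rw [show i = ((⟨i, hi⟩ : Fin n) : ℕ) from rfl, show j = ((⟨j, hj⟩ : Fin n) : ℕ) from rfl,
      hZ, hZ]
    intro h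
    have h1 := σ.injective (hy.injective h)
    have h2 := congrArg Fin.val h1
    simp only at h2
    omega)
  -- the factors
  have hfac : ∀ a b : Fin n, ∃ c : ℂ, b ≠ a → c ≠ 0 ∧ ∀ X : ℂ,
      br (z X) (spin (p (σ a) (σ b))) = c * ((Real.cos (u (a : ℕ) (lft a b) / 2) : ℂ) * X -
        (Real.sin (u (a : ℕ) (lft a b) / 2) : ℂ)) := by
    intro a b
    by_cases hab : b = a
    · exact ⟨1, fun h => absurd hab h⟩
    · obtain ⟨h1, t, ht, h2⟩ := hp (σ a) (σ b) (fun h => hab (σ.injective h).symm)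
      obtain ⟨h3, h4⟩ := hyp (σ a) (σ b) (p (σ a) (σ b)) t h1 h2
      obtain ⟨l1, l2⟩ := lft_mem hab
      have h5 := hexit (a : ℕ) (lft a b) l1 l2 t ht
      have h6 : (((a : ℕ) : ℤ) % (n : ℤ)).toNat = (a : ℕ) := by
        rw [Int.emod_eq_of_lt (by omega) (by have := a.2; omega)]
        simp
      rw [h6, lft_mod, hZ, hZ] at h5
      obtain ⟨c, hc, h7⟩ := h4 _ (h5 h3)
      exact ⟨c, fun _ => ⟨hc, h7⟩⟩
  choose c hc using hfac
  rw [Fintype.linearIndependent_iff]
  intro g hg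
  have hrel := relation p g hg
  obtain ⟨G, hG⟩ : ∃ G : Fin n → ℂ, G = fun a => g (σ a) * ∏ b ∈ Finset.univ.erase a, c a b :=
    ⟨_, rfl⟩
  have hpoly : ∑ a : Fin n, C (G a) * (rowP n u ((a : ℕ) : ℤ)).map Complex.ofRealHom = 0 := by
    refine Polynomial.eq_zero_of_infinite_isRoot _ (hinf.mono fun X hX => ?_)
    have h1 := hrel (z X) hX
    rw [← Equiv.sum_comp σ] at h1
    change Polynomial.eval X _ = 0
    rw [Polynomial.eval_finsetSum, ← h1]
    refine Finset.sum_congr rfl fun a _ => ?_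
    have h2 : ∏ j ∈ Finset.univ.erase (σ a), br (z X) (spin (p (σ a) j)) =
        ∏ b ∈ Finset.univ.erase a, br (z X) (spin (p (σ a) (σ b))) := by
      have : Finset.univ.erase (σ a) = (Finset.univ.erase a).map σ.toEmbedding := by
        rw [Finset.map_erase]
        simp
      rw [this, Finset.prod_map]
      rfl
    have h3 : ∏ b ∈ Finset.univ.erase a, br (z X) (spin (p (σ a) (σ b))) =
        (∏ b ∈ Finset.univ.erase a, c a b) * ∏ b ∈ Finset.univ.erase a,
          ((Real.cos (u (a : ℕ) (lft a b) / 2) : ℂ) * X - (Real.sin (u (a : ℕ) (lft a b) / 2) : ℂ)) := by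
      rw [← Finset.prod_mul_distrib]
      exact Finset.prod_congr rfl fun b hb => (hc a b (Finset.ne_of_mem_erase hb)).2 X
    have h4 : Polynomial.eval X ((rowP n u ((a : ℕ) : ℤ)).map Complex.ofRealHom) =
        ∏ b ∈ Finset.univ.erase a,
          ((Real.cos (u (a : ℕ) (lft a b) / 2) : ℂ) * X - (Real.sin (u (a : ℕ) (lft a b) / 2) : ℂ)) := by
      unfold rowP
      rw [prod_lft a, Polynomial.map_prod, Polynomial.eval_prod]
      refine Finset.prod_congr rfl fun b _ => ?_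
      simp only [Polynomial.map_sub, Polynomial.map_mul, Polynomial.map_C, Polynomial.map_X,
        Polynomial.eval_sub, Polynomial.eval_mul, Polynomial.eval_C, Polynomial.eval_X,
        Complex.ofRealHom_eq_coe]
    rw [Polynomial.eval_mul, Polynomial.eval_C, h4, h2, h3, hG]
    ring
  have hG0 := complex_indep hcore hn hu G hpoly
  intro i
  have h1 := hG0 (σ.symm i)
  rw [hG] at h1
  simp only [Equiv.apply_symm_apply] at h1
  exact (mul_eq_zero.1 h1).resolve_right
    (Finset.prod_ne_zero_iff.2 fun b hb => (hc _ b (Finset.ne_of_mem_erase hb)).1)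

end Pool.Agent.H64.CC
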