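import Pool.Agent.H64.Hyp4.Ext
import Pool.Agent.H64.CC.Dir

/-!
# Coordinates for points of a plane

`m` is a unit vector, the points of the plane `⟨m, q⟩ = d` of the open ball become points of the open
unit disc; the spinors of the points of the sphere in this plane become real.
-/

set_option autoImplicit false

namespace Pool.Agent.H64.CC

open Pool.Agent.H64.Hyp4
open Pool.Agent.Results.MP_1fedf0_gt.CollinearPlusOne

theorem Lam_spin_self {m : Fin 3 → ℝ} (hm : ∑ k, m k ^ 2 = 1) : ∃ κ : ℝ, 0 < κ ∧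
    ∀ q : Fin 3 → ℝ, Lam (spin m) (spin m) q = ((2 * κ * (1 - ∑ k, m k * q k) : ℝ) : ℂ) := by
  obtain ⟨κ, hκ, h1, h2, h3, h4⟩ := spin_herm hm
  refine ⟨κ, hκ, fun q => ?_⟩
  unfold Lam
  rw [h1, h2, h3, h4]
  simp only [Fin.sum_univ_three]
  push_cast
  linear_combination (-(2 * (κ : ℂ) * (q 1 : ℂ) * (m 1 : ℂ))) * Complex.I_sq * (-1)

theorem Nm_spin_self {m : Fin 3 → ℝ} (hm : ∑ k, m k ^ 2 = 1) : ∃ κ : ℝ, 0 < κ ∧
    ∀ q : Fin 3 → ℝ, Nm (spin m) q = 2 * κ * (1 - ∑ k, m k * q k) := by
  obtain ⟨κ, hκ, h⟩ := Lam_spin_self hm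
  refine ⟨κ, hκ, fun q => ?_⟩
  unfold Nm
  rw [h q]
  simp

/-- the basis of spinors attached to a unit vector -/
theorem exists_frame {m : Fin 3 → ℝ} (hm : ∑ k, m k ^ 2 = 1) :
    ∃ (u v : ℂ × ℂ) (a b : ℝ), 0 < a ∧ 0 < b ∧ br u v ≠ 0 ∧
      (∀ q : Fin 3 → ℝ, Nm u q = a * (1 - ∑ k, m k * q k)) ∧
      (∀ q : Fin 3 → ℝ, Nm v q = b * (1 + ∑ k, m k * q k)) ∧
      (∀ q : Fin 3 → ℝ, Complex.normSq (Lam v u q) =
        a * b * (∑ k, q k ^ 2 - (∑ k, m k * q k) ^ 2)) ∧
      Complex.normSq (br u v) = a * b := by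
  have hm' : ∑ k, (-m) k ^ 2 = 1 := by
    rw [← hm]
    exact Finset.sum_congr rfl fun k _ => by simp
  obtain ⟨κ, hκ, h1⟩ := Nm_spin_self hm
  obtain ⟨κ', hκ', h2⟩ := Nm_spin_self hm'
  have h3 : ∀ q : Fin 3 → ℝ, Nm (spin (-m)) q = 2 * κ' * (1 + ∑ k, m k * q k) := by
    intro q
    rw [h2 q]
    have : ∑ k, (-m) k * q k = -∑ k, m k * q k := by
      rw [← Finset.sum_neg_distrib]
      exact Finset.sum_congr rfl fun k _ => by simp
    rw [this]
    ring
  -- the bracket
  obtain ⟨μ, hμ, h4⟩ := Lam_spin (spin (-m)) (spin (-m)) hm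
  have hbr0 : Complex.normSq (br (spin m) (spin (-m))) = μ * (2 * κ' * 2) := by
    have h5 := h4
    rw [Complex.mul_conj, Lam_self, h3 m] at h5
    have h6 : ∑ k, m k * m k = 1 := by
      rw [← hm]
      exact Finset.sum_congr rfl fun k _ => by ring
    rw [h6] at h5
    have h7 : Complex.normSq (br (spin m) (spin (-m))) = μ * (2 * κ' * (1 + 1)) := by
      exact_mod_cast h5
    rw [h7]
    ring
  have hbrne : br (spin m) (spin (-m)) ≠ 0 := by
    intro h
    rw [h, map_zero] at hbr0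
    have : 0 < μ * (2 * κ' * 2) := by positivity
    linarith
  -- at the origin
  have hL0 : Lam (spin (-m)) (spin m) 0 = 0 := by
    obtain ⟨ν, hν, g1, g2, g3, g4⟩ := spin_herm hm
    obtain ⟨ν', hν', g1', g2', g3', g4'⟩ := spin_herm hm'
    have e : Lam (spin (-m)) (spin m) 0 = (spin (-m)).2 * (starRingEnd ℂ) (spin m).2 +
        (spin (-m)).1 * (starRingEnd ℂ) (spin m).1 := by
      unfold Lam
      simp
    rw [e]
    simp only [Pi.neg_apply] at g1' g2' g3' g4'
    push_cast at g1' g2' g3' g4'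
    have hsq : ((m 0 : ℂ)) ^ 2 + (m 1 : ℂ) ^ 2 + (m 2 : ℂ) ^ 2 = 1 := by
      have := hm
      rw [Fin.sum_univ_three] at this
      exact_mod_cast this
    -- normSq of the hermitian product is zero
    have key : Complex.normSq ((spin (-m)).2 * (starRingEnd ℂ) (spin m).2 +
        (spin (-m)).1 * (starRingEnd ℂ) (spin m).1) = 0 := by
      have h5 : ((Complex.normSq ((spin (-m)).2 * (starRingEnd ℂ) (spin m).2 +
        (spin (-m)).1 * (starRingEnd ℂ) (spin m).1) : ℝ) : ℂ) = 0 := by
        rw [← Complex.mul_conj]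
        simp only [map_add, map_mul, Complex.conj_conj]
        have h6 : ((spin (-m)).2 * (starRingEnd ℂ) (spin m).2 +
            (spin (-m)).1 * (starRingEnd ℂ) (spin m).1) *
            ((starRingEnd ℂ) (spin (-m)).2 * (spin m).2 +
              (starRingEnd ℂ) (spin (-m)).1 * (spin m).1) =
            ((spin (-m)).2 * (starRingEnd ℂ) (spin (-m)).2) *
              ((spin m).2 * (starRingEnd ℂ) (spin m).2) +
            ((spin (-m)).1 * (starRingEnd ℂ) (spin (-m)).1) *
              ((spin m).1 * (starRingEnd ℂ) (spin m).1) +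
            ((spin (-m)).2 * (starRingEnd ℂ) (spin (-m)).1) *
              ((spin m).1 * (starRingEnd ℂ) (spin m).2) +
            ((spin (-m)).1 * (starRingEnd ℂ) (spin (-m)).2) *
              ((spin m).2 * (starRingEnd ℂ) (spin m).1) := by ring
        rw [h6, g1, g2, g3, g4, g1', g2', g3', g4']
        linear_combination (-2 * (ν : ℂ) * ν') * hsq + (2 * (ν : ℂ) * ν' * (m 1 : ℂ) ^ 2) * Complex.I_sq
      exact_mod_cast h5
    exact Complex.normSq_eq_zero.1 key
  have hbr1 : Complex.normSq (br (spin m) (spin (-m))) = 2 * κ * (2 * κ') := by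
    have h5 := normSq_Lam (spin m) (spin (-m)) 0
    rw [hL0, map_zero, h1 0, h3 0] at h5
    simp only [Pi.zero_apply, mul_zero, Finset.sum_const_zero, sub_zero, add_zero, mul_one, ne_eq,
      OfNat.ofNat_ne_zero, not_false_eq_true, zero_pow, one_mul] at h5
    linarith
  refine ⟨spin m, spin (-m), 2 * κ, 2 * κ', by positivity, by positivity, hbrne, h1, h3, ?_, hbr1⟩
  intro q
  rw [normSq_Lam (spin m) (spin (-m)) q, h1 q, h3 q, hbr1]
  ring

theorem Lam_add {α γ : ℂ × ℂ} (h0 : Lam α γ 0 = 0) (p q : Fin 3 → ℝ) :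
    Lam α γ (p + q) = Lam α γ p + Lam α γ q := by
  unfold Lam at *
  simp only [Pi.zero_apply, Pi.add_apply] at *
  push_cast at *
  linear_combination -h0

theorem Lam_smul {α γ : ℂ × ℂ} (h0 : Lam α γ 0 = 0) (t : ℝ) (q : Fin 3 → ℝ) :
    Lam α γ (t • q) = (t : ℂ) * Lam α γ q := by
  unfold Lam at *
  simp only [Pi.zero_apply, Pi.smul_apply, smul_eq_mul] at *
  push_cast at *
  linear_combination (1 - (t : ℂ)) * h0

/-- Points of a plane of the ball as points of the disc, real coordinates for the spinors. -/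
theorem exists_disc {n : ℕ} {m : Fin 3 → ℝ} (hm : ∑ k, m k ^ 2 = 1) {d : ℝ}
    {x : Fin n → Fin 3 → ℝ} (hx : ∀ i, ∑ k : Fin 3, (x i k) ^ 2 < 1)
    (hd : ∀ i, ∑ k, m k * x i k = d) (hd1 : -1 < d) (hd2 : d < 1)
    (hci : ConvexIndependent ℝ x) :
    ∃ (y : Fin n → ℂ) (z : ℂ → ℂ × ℂ), ConvexIndependent ℝ y ∧ (∀ i, ‖y i‖ < 1) ∧
      Set.Infinite {X : ℂ | (z X).2 ≠ 0} ∧
      ∀ (i j : Fin n) (p : Fin 3 → ℝ) (t : ℝ), ∑ k : Fin 3, (p k) ^ 2 = 1 →
        p = x i + t • (x j - x i) → ‖y i + t • (y j - y i)‖ = 1 ∧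
        ∀ θ : ℝ, y i + t • (y j - y i) = ex θ → ∃ c : ℂ, c ≠ 0 ∧ ∀ X : ℂ,
          br (z X) (spin p) = c * ((Real.cos (θ / 2) : ℂ) * X - (Real.sin (θ / 2) : ℂ)) := by
  obtain ⟨u, v, a, b, ha, hb, huv, hNu, hNv, hL, hbr⟩ := exists_frame hm
  have hM : 0 < a * (1 - d) := mul_pos ha (by linarith)
  have hM' : 0 < b * (1 + d) := mul_pos hb (by linarith)
  obtain ⟨R, hR0, hR⟩ : ∃ R : ℝ, 0 < R ∧ R ^ 2 * (a * (1 - d)) = b * (1 + d) := by
    refine ⟨Real.sqrt (b * (1 + d) / (a * (1 - d))), Real.sqrt_pos.2 (by positivity), ?_⟩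
    rw [Real.sq_sqrt (by positivity), div_mul_cancel₀ _ hM.ne']
  have hL0 : Lam v u 0 = 0 := by
    have := hL 0
    simp at this
    exact this
  obtain ⟨c0, hc0⟩ : ∃ c0 : ℝ, c0 = R * (a * (1 - d)) := ⟨_, rfl⟩
  have hc0pos : 0 < c0 := by rw [hc0]; positivity
  have hc0c : (c0 : ℂ) ≠ 0 := by exact_mod_cast hc0pos.ne'
  have hc0sq : c0 ^ 2 = a * b * (1 - d ^ 2) := by
    rw [hc0]
    have : (R * (a * (1 - d))) ^ 2 = R ^ 2 * (a * (1 - d)) * (a * (1 - d)) := by ring
    rw [this, hR]
    ring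
  obtain ⟨A, hA⟩ : ∃ A : (Fin 3 → ℝ) → ℂ, A = fun q => Lam v u q / (c0 : ℂ) := ⟨_, rfl⟩
  have hAlin : IsLinearMap ℝ A := by
    constructor
    · intro p q
      rw [hA]
      simp only
      rw [Lam_add hL0]
      ring
    · intro t q
      rw [hA]
      simp only
      rw [Lam_smul hL0, Complex.real_smul]
      ring
  have hnorm : ∀ q : Fin 3 → ℝ, ∑ k, m k * q k = d →
      ‖A q‖ ^ 2 * c0 ^ 2 = a * b * (∑ k, q k ^ 2 - d ^ 2) := by
    intro q hq
    rw [hA]
    simp only
    rw [norm_div, Complex.norm_real, Real.norm_of_nonneg hc0pos.le, div_pow,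
      ← Complex.normSq_eq_norm_sq, hL q, hq]
    field_simp
  have hline : ∀ i j (t : ℝ), A (x i + t • (x j - x i)) = A (x i) + t • (A (x j) - A (x i)) := by
    intro i j t
    rw [hAlin.map_add, hAlin.map_smul, sub_eq_add_neg (x j) (x i), hAlin.map_add,
      show -(x i) = (-1 : ℝ) • x i by simp, hAlin.map_smul]
    simp [sub_eq_add_neg]
  have hplane : ∀ i j (t : ℝ), ∑ k, m k * (x i + t • (x j - x i)) k = d := by
    intro i j t
    have h1 := hd i
    have h2 := hd j
    simp only [Fin.sum_univ_three, Pi.add_apply, Pi.smul_apply, Pi.sub_apply, smul_eq_mul] at *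
    linear_combination (1 - t) * h1 + t * h2
  refine ⟨fun i => A (x i), fun X => (((X - Complex.I) / 2) • u + ((X + Complex.I) / (2 * R)) • v),
    ?_, ?_, ?_, ?_⟩
  · -- convex independence
    intro s j hj
    have h1 : (fun i => A (x i)) '' s = A '' (x '' s) := by rw [Set.image_image]
    rw [h1, ← hAlin.image_convexHull] at hj
    obtain ⟨q, hq, hq2⟩ := hj
    have hqd : ∑ k, m k * q k = d := by
      have hconv : Convex ℝ {q : Fin 3 → ℝ | ∑ k, m k * q k = d} := by
        intro p hp q hq α β _ _ hαβ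
        simp only [Set.mem_ofPred_eq, Fin.sum_univ_three, Pi.add_apply, Pi.smul_apply,
          smul_eq_mul] at *
        linear_combination α * hp + β * hq + d * hαβ
      have hsub : convexHull ℝ (x '' s) ⊆ {q : Fin 3 → ℝ | ∑ k, m k * q k = d} := by
        apply convexHull_min _ hconv
        rintro _ ⟨i, _, rfl⟩
        exact hd i
      exact hsub hq
    have h2 : A (q - x j) = 0 := by
      rw [sub_eq_add_neg, hAlin.map_add, show -(x j) = (-1 : ℝ) • x j by simp, hAlin.map_smul, hq2]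
      simp
    have h3 : Lam v u (q - x j) = 0 := by
      rw [hA] at h2
      simp only at h2
      exact (div_eq_zero_iff.1 h2).resolve_right hc0c
    have h4 := hL (q - x j)
    rw [h3, map_zero] at h4
    have h5 : ∑ k, m k * (q - x j) k = 0 := by
      have := hd j
      simp only [Fin.sum_univ_three, Pi.sub_apply] at *
      linarith
    rw [h5] at h4
    have h6 : ∑ k, (q - x j) k ^ 2 = 0 := by
      have h7 : a * b ≠ 0 := by positivity
      have h8 := (mul_eq_zero.1 h4.symm).resolve_left h7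
      linarith
    have h7 : q = x j := by
      have h8 := (Finset.sum_eq_zero_iff_of_nonneg (fun k _ => sq_nonneg ((q - x j) k))).1 h6
      funext k
      have h9 := h8 k (Finset.mem_univ k)
      have h10 : (q - x j) k = 0 := by
        rw [sq_eq_zero_iff] at h9
        exact h9
      simpa [sub_eq_zero] using h10
    rw [h7] at hq
    exact hci _ _ hq
  · intro i
    have h1 := hnorm (x i) (hd i)
    have h2 := hx i
    have h3 : ‖A (x i)‖ ^ 2 * c0 ^ 2 < 1 * c0 ^ 2 := by
      rw [h1, one_mul, hc0sq]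
      have : 0 < a * b := mul_pos ha hb
      nlinarith
    have h4 := lt_of_mul_lt_mul_right h3 (sq_nonneg c0)
    have h5 := norm_nonneg (A (x i))
    change ‖A (x i)‖ < 1
    nlinarith
  · -- infinitely many good values
    have hR0c : (R : ℂ) ≠ 0 := by exact_mod_cast hR0.ne'
    have hz2 : ∀ X : ℂ, ((((X - Complex.I) / 2) • u + ((X + Complex.I) / (2 * R)) • v) : ℂ × ℂ).2 =
        X * (u.2 / 2 + v.2 / (2 * R)) + Complex.I * (v.2 / (2 * R) - u.2 / 2) := by
      intro X
      simp only [Prod.snd_add, Prod.smul_snd, smul_eq_mul]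
      field_simp
      ring
    by_cases h : u.2 / 2 + v.2 / (2 * R) = 0
    · have hne : v.2 / (2 * R) - u.2 / 2 ≠ 0 := by
        intro h'
        have h1 : u.2 = 0 := by linear_combination h - h'
        have h2 : v.2 = 0 := by
          have h3 : v.2 / (2 * R) = 0 := by linear_combination (h + h') / 2
          rcases div_eq_zero_iff.1 h3 with h4 | h4
          · exact h4
          · exfalso
            exact (mul_ne_zero two_ne_zero hR0c) h4
        apply huv
        unfold br
        rw [h1, h2]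
        ring
      have : {X : ℂ | ((((X - Complex.I) / 2) • u + ((X + Complex.I) / (2 * R)) • v) : ℂ × ℂ).2 ≠ 0} =
          Set.univ := by
        ext X
        simp only [Set.mem_ofPred_eq, Set.mem_univ, iff_true]
        rw [hz2 X, h, mul_zero, zero_add]
        exact mul_ne_zero Complex.I_ne_zero hne
      rw [this]
      exact Set.infinite_univ
    · have hsub : ({-(Complex.I * (v.2 / (2 * R) - u.2 / 2)) / (u.2 / 2 + v.2 / (2 * R))} : Set ℂ)ᶜ ⊆
          {X : ℂ | ((((X - Complex.I) / 2) • u + ((X + Complex.I) / (2 * R)) • v) : ℂ × ℂ).2 ≠ 0} := by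
        intro X hX
        simp only [Set.mem_compl_iff, Set.mem_singleton_iff] at hX
        simp only [Set.mem_ofPred_eq]
        rw [hz2 X]
        intro h0
        apply hX
        rw [eq_div_iff h]
        linear_combination h0
      exact (Set.finite_singleton _).infinite_compl.mono hsub
  · intro i j p t hp hpt
    have hpd : ∑ k, m k * p k = d := by
      rw [hpt]
      exact hplane i j t
    have hAp : A p = A (x i) + t • (A (x j) - A (x i)) := by
      rw [hpt]
      exact hline i j t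
    change ‖A (x i) + t • (A (x j) - A (x i))‖ = 1 ∧ ∀ θ : ℝ,
      A (x i) + t • (A (x j) - A (x i)) = ex θ → _
    rw [← hAp]
    constructor
    · have h1 := hnorm p hpd
      rw [hp, hc0sq] at h1
      have h2 : a * b * (1 - d ^ 2) ≠ 0 := by
        rw [← hc0sq]
        positivity
      have h3 : ‖A p‖ ^ 2 = 1 := by
        have h4 : ‖A p‖ ^ 2 * (a * b * (1 - d ^ 2)) = 1 * (a * b * (1 - d ^ 2)) := by rw [h1, one_mul]
        exact mul_right_cancel₀ h2 h4
      have h5 := norm_nonneg (A p)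
      nlinarith
    · intro θ hθ
      obtain ⟨κ, hκ, hk⟩ := exists_kappa hp
      have h2 := hk v u
      have h3 := hk u u
      rw [Lam_self, hNu p, hpd] at h3
      have hne : br (spin p) u ≠ 0 := by
        intro h0
        rw [h0, zero_mul] at h3
        have : 0 < κ * (a * (1 - d)) := mul_pos hκ hM
        have h4 : κ * (a * (1 - d)) = 0 := by exact_mod_cast h3.symm
        linarith
      have hneconj : (starRingEnd ℂ) (br (spin p) u) ≠ 0 := by
        rw [Ne, map_eq_zero]
        exact hne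
      have hκc : (κ : ℂ) ≠ 0 := by exact_mod_cast hκ.ne'
      have hMc : ((a * (1 - d) : ℝ) : ℂ) ≠ 0 := by exact_mod_cast hM.ne'
      have hLp : Lam v u p = ex θ * (c0 : ℂ) := by
        rw [← hθ, hA]
        simp only
        field_simp
      have hbv : br (spin p) v = ex θ * R * br (spin p) u := by
        apply mul_right_cancel₀ hneconj
        rw [h2, hLp, hc0]
        push_cast at h3 ⊢
        linear_combination (-(ex θ * R)) * h3
      refine ⟨-(br (spin p) u * ex (θ / 2)), neg_ne_zero.2 (mul_ne_zero hne (ex_ne _)), fun X => ?_⟩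
      have hR0c : (R : ℂ) ≠ 0 := by exact_mod_cast hR0.ne'
      have e1 : br ((((X - Complex.I) / 2) • u + ((X + Complex.I) / (2 * R)) • v) : ℂ × ℂ) (spin p) =
          -((X - Complex.I) / 2 * br (spin p) u + (X + Complex.I) / (2 * R) * br (spin p) v) := by
        unfold br
        simp only [Prod.fst_add, Prod.snd_add, Prod.smul_fst, Prod.smul_snd, smul_eq_mul]
        ring
      have e2 : ex θ = ex (θ / 2) * ex (θ / 2) := by
        rw [← ex_add]
        congr 1
        ring
      have e3 : ex (θ / 2) = (Real.cos (θ / 2) : ℂ) + (Real.sin (θ / 2) : ℂ) * Complex.I := by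
        unfold ex
        rw [Complex.exp_mul_I, ← Complex.ofReal_cos, ← Complex.ofReal_sin]
      have e4 : ((Real.sin (θ / 2) : ℂ)) ^ 2 + (Real.cos (θ / 2) : ℂ) ^ 2 = 1 := by
        exact_mod_cast Real.sin_sq_add_cos_sq (θ / 2)
      have e5 : (X + Complex.I) / (2 * R) * (ex θ * R * br (spin p) u) =
          (X + Complex.I) / 2 * (ex (θ / 2) * ex (θ / 2)) * br (spin p) u := by
        rw [e2]
        field_simp
      rw [e1, hbv, e5, e3]
      linear_combination (-(br (spin p) u / 2) * (-X + Complex.I)) * e4 +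
        (-(br (spin p) u / 2) * (X * (Real.sin (θ / 2) : ℂ) ^ 2 + Complex.I *
          (Real.sin (θ / 2) : ℂ) ^ 2 + 2 * (Real.cos (θ / 2) : ℂ) * (Real.sin (θ / 2) : ℂ))) *
          Complex.I_sq

end Pool.Agent.H64.CC
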